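import Pool.Agent.L7h89.TP.Lin
import Pool.Agent.Y686.AW.Indep

/-!
Project TP (owner helper25, problem MP_7f581e_nt): the first coordinates of `m` different points
are algebraically independent (statement `S_IND`), characteristic 2 and exponent 8.
-/

set_option autoImplicit false

namespace Pool.Agent.L7h89.TP

open Polynomial Pool.Agent.Y140.AW Pool.Agent.L7h25.TP Pool.Agent.Y686.AW

theorem t_IND : S_IND := by
  classical
  intro K K₀ N _ _ _ _ _ _ _ _ _ _ Θ u w D₀ D d B m hDD huw ν s hb x θ hx hpt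
  have hcN : CharP N 2 := charP_of_injective_algebraMap (algebraMap K N).injective 2
  let y : Fin m ⊕ Unit → N := Sum.elim x fun _ => s
  let F₁ : IntermediateField K₀ N := IntermediateField.adjoin K₀ (Set.range y)
  have hsc : IsScalarTower K F₁ N := IsScalarTower.of_algebraMap_eq fun z => rfl
  have hxF : ∀ j, x j ∈ F₁ := fun j => IntermediateField.subset_adjoin K₀ _ ⟨Sum.inl j, rfl⟩
  have hsF : s ∈ F₁ := IntermediateField.subset_adjoin K₀ _ ⟨Sum.inr (), rfl⟩
  let L : IntermediateField F₁ N := algebraicClosure F₁ N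
  have hL : ∀ z : N, z ∈ L ↔ IsAlgebraic F₁ z := fun z => mem_algebraicClosure_iff
  have hFL : ∀ z ∈ F₁, z ∈ L := fun z hz =>
    (hL z).2 (isAlgebraic_algebraMap (⟨z, hz⟩ : F₁))
  have hxL : ∀ j, x j ∈ L := fun j => hFL _ (hxF j)
  have hsL : s ∈ L := hFL _ hsF
  -- polynomials in `x j`
  have hpolyL : ∀ (P : K[X]) (j : Fin m), aeval (x j) P ∈ L := by
    intro P j
    refine hFL _ ?_
    have h1 : aeval (x j) P = algebraMap F₁ N (aeval (⟨x j, hxF j⟩ : F₁) P) := by
      rw [← aeval_algebraMap_apply]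
      rfl
    rw [h1]
    exact (aeval (⟨x j, hxF j⟩ : F₁) P).2
  have hθL : ∀ j, θ j ∈ L := by
    intro j
    rw [hL]
    have h1 := (hpt j).1
    have hint : IsIntegral F₁ (θ j) := by
      refine ⟨Θ.map (aeval (⟨x j, hxF j⟩ : F₁) : K[X] →ₐ[K] F₁).toRingHom,
        hDD.monic.map _, ?_⟩
      rw [Polynomial.eval₂_eq_eval_map, Polynomial.map_map]
      have h2 : (algebraMap F₁ N).comp (aeval (⟨x j, hxF j⟩ : F₁) : K[X] →ₐ[K] F₁).toRingHom =
          (Polynomial.aeval (x j) : K[X] →ₐ[K] N).toRingHom := by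
        refine RingHom.ext fun P => ?_
        show algebraMap F₁ N (aeval (⟨x j, hxF j⟩ : F₁) P) = aeval (x j) P
        rw [← aeval_algebraMap_apply]
        rfl
      rw [h2]
      exact h1
    exact hint.isAlgebraic
  -- the coefficients
  have hνL : ∀ a, ν a ∈ L := by
    refine solve_mem L (fun j => x j ^ 8) ?_ (fun j => pow_mem (hxL j) 8) ν ?_
    · intro i j hij
      exact hx (pow8_inj hij)
    · intro j
      obtain ⟨-, h2, h3⟩ := hpt j
      have hw := w_ne huw (hpt j)
      rw [G8_eval] at h3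
      have h5 : ∑ a : Fin m, ν a * (x j ^ 8) ^ (a : ℕ) =
          (s * aeval (x j) w * (aeval (x j) D * θ j) ^ 8 -
          (aeval (x j) u * (aeval (x j) D) ^ 8 +
            aeval (x j) w * (x j ^ B * aeval (x j) D + 1) ^ 8)) /
          (aeval (x j) w * (aeval (x j) D) ^ 8) := by
        rw [eq_div_iff (mul_ne_zero hw (pow_ne_zero 8 h2)), ← h3]
        ring
      rw [h5]
      have hD' := hpolyL D j
      have hu' := hpolyL u j
      have hw' := hpolyL w j
      refine div_mem (sub_mem (mul_mem (mul_mem hsL hw') (pow_mem (mul_mem hD' (hθL j)) 8))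
        (add_mem (mul_mem hu' (pow_mem hD' 8)) (mul_mem hw'
        (pow_mem (add_mem (mul_mem (pow_mem (hxL j) B) hD') (one_mem _)) 8))))
        (mul_mem hw' (pow_mem hD' 8))
  -- `N` is algebraic over `F₁`
  let M : IntermediateField K₀ N :=
    IntermediateField.adjoin K₀ (Set.range (fun o : Option (Fin m) => o.elim s ν))
  have hMN : Algebra.IsAlgebraic M N := hb.isAlgebraic_field
  have hML : M ≤ L.restrictScalars K₀ := by
    refine IntermediateField.adjoin_le_iff.2 ?_
    rintro _ ⟨o, rfl⟩
    cases o with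
    | none => exact hsL
    | some a => exact hνL a
  have hML' : ∀ z : M, (algebraMap M N) z ∈ L := fun z => hML z.2
  have hN : Algebra.IsAlgebraic F₁ N := by
    let _ : Algebra M L := ((algebraMap M N).codRestrict L hML').toAlgebra
    have : IsScalarTower M L N := IsScalarTower.of_algebraMap_eq fun _ => rfl
    have hLF : Algebra.IsAlgebraic F₁ L := algebraicClosure.isAlgebraic F₁ N
    refine ⟨fun z => ?_⟩
    have h1 : IsAlgebraic M z := hMN.isAlgebraic z
    have h2 : IsAlgebraic L z := h1.tower_top L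
    exact h2.restrictScalars F₁
  have hN' : Algebra.IsAlgebraic (Algebra.adjoin K₀ (Set.range y)) N :=
    IntermediateField.isAlgebraic_adjoin_iff_top.1 hN
  have hcard : Cardinal.mk (Fin m ⊕ Unit) ≤ Algebra.trdeg K₀ N := by
    rw [← hb.cardinalMk_eq_trdeg]
    simp
  have hbas : IsTranscendenceBasis K₀ y :=
    Algebra.IsAlgebraic.isTranscendenceBasis_of_le_trdeg_of_finite K₀ y hcard
  have h1 := (AlgebraicIndependent.sumElim_iff.1 hbas.1).2
  have h2 := IntermediateField.algebraicIndependent_adjoin_iff.2 h1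
  have h3 : Set.range (fun _ : Unit => s) = {s} := Set.range_const
  rw [h3] at h2
  exact h2

end Pool.Agent.L7h89.TP
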