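import Pool.Agent.L7h25.TP.Stm

/-!
Project TP (owner helper25, problem MP_7f581e_nt): the parameters are determined by the points
(statement `S_LIN`), characteristic 2 and exponent 8.
-/

set_option autoImplicit false

namespace Pool.Agent.L7h89.TP

open Polynomial Pool.Agent.Y140.AW Pool.Agent.L7h25.TP

section

variable {K N : Type} [Field K] [Field N] [Algebra K N]

theorem G8_eval (u w D : K[X]) (B : ℕ) {m : ℕ} (ν : Fin m → N) (a : N) :
    (G8 u w D B ν).eval a = aeval a u * (aeval a D) ^ 8 +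
      aeval a w * ((a ^ B * aeval a D + 1) ^ 8 +
        (aeval a D) ^ 8 * ∑ i : Fin m, ν i * (a ^ 8) ^ (i : ℕ)) := by
  unfold G8
  simp only [eval_add, eval_mul, eval_pow, eval_X, eval_C, eval_one, eval_finsetSum,
    eval_map_algebraMap, pow_mul]

/-- The value of `w` at a point is nonzero. -/
theorem w_ne {Θ : K[X][X]} {u w D : K[X]} {B m : ℕ} (huw : UW u w) {ν : Fin m → N} {s a b : N}
    (h : Pt8 Θ u w D B ν s a b) : aeval a w ≠ 0 := by
  intro hw
  obtain ⟨-, h2, h3⟩ := h
  rw [G8_eval, hw, zero_mul, add_zero, mul_zero, zero_mul] at h3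
  have h4 : aeval a u = 0 := by
    rcases mul_eq_zero.1 h3 with h | h
    · exact h
    · exact absurd h (pow_ne_zero 8 h2)
  have h5 := congrArg (aeval a) huw.wr
  rw [map_sub, map_mul, map_mul, hw, h4, mul_zero, zero_mul, sub_zero, map_one] at h5
  exact zero_ne_one h5

theorem pow8_inj [CharP N 2] : Function.Injective (fun z : N => z ^ 8) := by
  intro a b hab
  have : Fact (Nat.Prime 2) := ⟨Nat.prime_two⟩
  have h := frobenius_inj N 2
  apply h
  apply h
  apply h
  show ((a ^ 2) ^ 2) ^ 2 = ((b ^ 2) ^ 2) ^ 2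
  rw [← pow_mul, ← pow_mul, ← pow_mul, ← pow_mul]
  exact hab

end

theorem t_LIN : S_LIN := by
  intro K N _ _ _ _ Θ u w D B m huw ν ν' s x θ hx h h'
  have hcN : CharP N 2 := charP_of_injective_algebraMap (algebraMap K N).injective 2
  have hinj : Function.Injective (fun j => x j ^ 8) := fun i j hij => hx (pow8_inj hij)
  have h1 : (fun i => ν i - ν' i) = 0 := by
    refine Matrix.eq_zero_of_forall_index_sum_pow_mul_eq_zero hinj fun j => ?_
    have h2 := (h j).2.2
    have h3 := (h' j).2.2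
    rw [← h3, G8_eval, G8_eval] at h2
    have h4 := mul_left_cancel₀ (pow_ne_zero 8 (h j).2.1)
      (add_left_cancel (mul_left_cancel₀ (w_ne huw (h j)) (add_left_cancel h2)))
    have h5 : ∑ i : Fin m, (x j ^ 8) ^ (i : ℕ) * (ν i - ν' i) =
        ∑ i : Fin m, ν i * (x j ^ 8) ^ (i : ℕ) - ∑ i : Fin m, ν' i * (x j ^ 8) ^ (i : ℕ) := by
      rw [← Finset.sum_sub_distrib]
      exact Finset.sum_congr rfl fun i _ => by ring
    rw [h5, h4, sub_self]
  funext i
  exact sub_eq_zero.1 (congrFun h1 i)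

end Pool.Agent.L7h89.TP
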